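import Pool.Agent.Y498.ML.Top

/-!
# Every convex body in space has a lattice packing of density at least `(2/9)√(15/13) > 0.2387`

`dL`, `dT` are the suprema of the densities of the lattice packings and of the packings by
translates, `mn` is the minimum over all convex bodies (`Body`), see `Pool.Agent.TH219.DL.Defs`.

Proof: after a linear change of coordinates the least ellipsoid containing `K - K` is the unit ball.
One of its contact points `e` carries a weight at least `1/2` in John's decomposition, so that the
projection of `K - K` along `e` has half width at least `√(2/5)` in all directions. The translates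
of `K` are arranged in columns along `e`: the columns over a lattice of Fáry (density `2/3`) for the
shadow of `K`, and in the columns the next layer is shifted horizontally to the deepest hole of the
planar lattice, which is at distance at least `√(2/15)` from all its points, so that the layers come
closer to each other than the longest chord of `K`.
-/

namespace Pool.Agent.Results.MP_3d065d_co.LatticeLowerBound

open Pool.Agent.TH219.DL

theorem result :
    (∀ K : Set (Fin 3 → ℝ), Body K → ENNReal.ofReal (2 / 9 * √(15 / 13)) ≤ dL K) ∧
      ENNReal.ofReal 0.2387 ≤ mn dL ∧ ENNReal.ofReal 0.2387 ≤ mn dT := by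
  have h0 : (0.2387 : ℝ) ≤ 2 / 9 * √(15 / 13) := by
    have h1 : (0.2387 * (9 / 2) : ℝ) ≤ √(15 / 13) := Real.le_sqrt_of_sq_le (by norm_num)
    linarith
  have h1 : ∀ K : Set (Fin 3 → ℝ), Body K → ENNReal.ofReal 0.2387 ≤ dL K := fun K hK =>
    (ENNReal.ofReal_le_ofReal h0).trans (Pool.Agent.Y498.ML.low hK)
  exact ⟨fun K hK => Pool.Agent.Y498.ML.low hK, le_iInf₂ fun K hK => h1 K hK,
    le_iInf₂ fun K hK => (h1 K hK).trans (dL_le_dT K)⟩

end Pool.Agent.Results.MP_3d065d_co.LatticeLowerBound
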